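import Pool.Agent.Lib.helper22.KH

set_option autoImplicit false

namespace Pool.Agent.Results.MP_e57333_lc.All

open Pool.Agent.H.MP_d04dff_lc Pool.Agent.Lib.helper21.KC Pool.Agent.Lib.AK

variable (U : List Bool → List Bool →. List Bool) (e : List (List Bool) → List Bool)

/-- `C(u | v)` -/
noncomputable def Cx (u v : List Bool) : ℤ := K (fun p => U p v) u

def GW (x y : List Bool) : Set (Fin 3 → ℤ) := {t | ∃ q, Cx U x q ≤ t 0 ∧ Cx U y q ≤ t 1 ∧ Cx U q [] ≤ t 2}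

def W (x y : List Bool) : Set (Fin 2 → ℤ) :=
  {t | ∃ q, Cx U q [] ≤ t 0 ∧ Cx U x q + Cx U y q - Cx U (e [x, y]) q ≤ t 1}

noncomputable def prof (x y q : List Bool) : Fin 7 → ℤ := ![Cx U x [], Cx U y [], Cx U q [], Cx U (e [x, y]) [],
  Cx U (e [x, q]) [], Cx U (e [y, q]) [], Cx U (e [x, y, q]) []]

def E (x y : List Bool) : Set (Fin 7 → ℤ) := Set.range (prof U e x y)

def Nr {d : ℕ} (δ : ℝ) (p p' : Fin d → ℤ) : Prop := ∀ i, |(p i : ℝ) - p' i| ≤ δ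

def Close {d : ℕ} (δ : ℝ) (S S' : Set (Fin d → ℤ)) : Prop :=
  (∀ p ∈ S, ∃ p' ∈ S', Nr δ p p') ∧ ∀ p' ∈ S', ∃ p ∈ S, Nr δ p p'

def Det {d d' : ℕ} (P : List Bool → List Bool → Set (Fin d → ℤ)) (P' : List Bool → List Bool → Set (Fin d' → ℤ)) :
    Prop :=
  ∀ c > (0 : ℝ), ∃ c' > (0 : ℝ), ∀ n : ℕ, 2 ≤ n → ∀ x y x' y' : List Bool,
    x.length ≤ n → y.length ≤ n → x'.length ≤ n → y'.length ≤ n →
    Close (c * Real.logb 2 n) (P x y) (P x' y') → Close (c' * Real.logb 2 n) (P' x y) (P' x' y')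

variable {U e}

theorem Nr.int {d k : ℕ} {δ : ℝ} {p p' : Fin d → ℤ} (h : Nr δ p p') (hk : δ ≤ k) (i : Fin d) :
    p i ≤ p' i + k ∧ p' i ≤ p i + k := by
  have : |p i - p' i| ≤ k := by exact_mod_cast (h i).trans hk
  rw [abs_le] at this; omega
theorem Nr.of {d k : ℕ} {δ : ℝ} {p p' : Fin d → ℤ} (hk : k ≤ δ) (h : ∀ i, p i ≤ p' i + k ∧ p' i ≤ p i + k) :
    Nr δ p p' := fun i => le_trans (by
  have : |p i - p' i| ≤ k := by have := h i; rw [abs_le]; omega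
  exact_mod_cast this) hk
theorem Close.symm {d : ℕ} {δ : ℝ} {S S' : Set (Fin d → ℤ)} (h : Close δ S S') : Close δ S' S :=
  ⟨fun p hp => let ⟨q, a, b⟩ := h.2 p hp; ⟨q, a, fun i => abs_sub_comm (q i : ℝ) _ ▸ b i⟩,
    fun p hp => let ⟨q, a, b⟩ := h.1 p hp; ⟨q, a, fun i => abs_sub_comm (p i : ℝ) _ ▸ b i⟩⟩
theorem close_of {d k : ℕ} {δ : ℝ} {S S' : Set (Fin d → ℤ)} (hk : k ≤ δ) (h : ∀ p ∈ S, (fun i => p i + k) ∈ S')
    (h' : ∀ p ∈ S', (fun i => p i + k) ∈ S) : Close δ S S' :=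
  ⟨fun p hp => ⟨_, h p hp, .of hk fun i => by omega⟩, fun p hp => ⟨_, h' p hp, .of hk fun i => by omega⟩⟩

theorem step {δ : ℝ} {k : ℕ} {x y x' y' : Str} (h : Close δ (GW U x y) (GW U x' y')) (hk : δ ≤ k) (q : Str) :
    ∃ q' : Str, K (fun p => U p []) q' ≤ K (fun p => U p []) q + k ∧
      K (fun p => U p q') x' ≤ K (fun p => U p q) x + k ∧ K (fun p => U p q') y' ≤ K (fun p => U p q) y + k := by
  obtain ⟨p, ⟨q', h1⟩, h2⟩ := h.1 ![Cx U x q, Cx U y q, Cx U q []] ⟨q, le_rfl, le_rfl, le_rfl⟩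
  have := h2.int hk 0; have := h2.int hk 1; have := h2.int hk 2
  simp only [Cx, Matrix.cons_val] at *
  exact ⟨q', by omega⟩

/-- the data of an instance -/
def J (U : Str → Str →. Str) (c : ℝ) := {i : ℕ × (Str × Str) × (Str × Str) × Str // 2 ≤ i.1 ∧ i.2.1.1.length ≤ i.1 ∧
  i.2.1.2.length ≤ i.1 ∧ i.2.2.1.1.length ≤ i.1 ∧ i.2.2.1.2.length ≤ i.1 ∧
  Close (c * Real.logb 2 i.1) (GW U i.2.1.1 i.2.1.2) (GW U i.2.2.1.1 i.2.2.1.2)}

variable [Fact (OptC U)] (he : Computable e) (hi : Function.Injective e)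

theorem dom {c : ℝ} {N : J U c → ℕ} (hN : ∀ i, i.1.1 ≤ N i) :
    Pl U N (·.1.2.1.1) ∧ Pl U N (·.1.2.1.2) ∧ Pl U N (·.1.2.2.1.1) ∧ Pl U N (·.1.2.2.1.2) ∧
    Dom U N (·.1.2.1.1) (·.1.2.1.2) (·.1.2.2.1.1) (·.1.2.2.1.2) ∧
    Dom U N (·.1.2.2.1.1) (·.1.2.2.1.2) (·.1.2.1.1) (·.1.2.1.2) := by
  have h1 : Pl U N (·.1.2.1.1) := .ofLen fun i => i.2.2.1.trans (hN i)
  have h2 : Pl U N (·.1.2.1.2) := .ofLen fun i => i.2.2.2.1.trans (hN i)
  have h3 : Pl U N (·.1.2.2.1.1) := .ofLen fun i => i.2.2.2.2.1.trans (hN i)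
  have h4 : Pl U N (·.1.2.2.1.2) := .ofLen fun i => i.2.2.2.2.2.1.trans (hN i)
  have hd : Le N (fun i => ⌈c⌉₊ * lg i.1.1) 0 := Filter.eventually_atTop.2 ⟨_, fun _ h i =>
    (Nat.mul_le_mul h (lg_mono (hN i))).trans (Nat.le_add_left _ _)⟩
  exact ⟨h1, h2, h3, h4, dom_of h1 h2 hd fun i => step i.2.2.2.2.2.2 (lg_hi c i.2.1),
    dom_of h3 h4 hd fun i => step i.2.2.2.2.2.2.symm (lg_hi c i.2.1)⟩

include he hi

theorem partA (c : ℝ) : ∃ c' > (0 : ℝ), ∀ n : ℕ, 2 ≤ n → ∀ x y x' y' : List Bool,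
    x.length ≤ n → y.length ≤ n → x'.length ≤ n → y'.length ≤ n →
    Close (c * Real.logb 2 n) (GW U x y) (GW U x' y') →
    ∀ q, ∃ q', Nr (c' * Real.logb 2 (n + Cx U q [])) (prof U e x y q) (prof U e x' y' q') := by
  obtain ⟨h1, h2, h3, h4, h5, h6⟩ := dom (U := U) (c := c) (N := fun i => i.1.1 + K (fun p => U p []) i.1.2.2.2)
    fun _ => Nat.le_add_right _ _
  obtain ⟨w, hw⟩ := transfer_str he hi h1 h2 h3 h4 (q := (·.1.2.2.2)) (.ofK fun _ => Nat.le_add_left _ _) h5 h6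
  obtain ⟨k, hk⟩ := hw.exists
  refine ⟨(2 * k + 1 : ℕ), by positivity, fun n hn x y x' y' a1 a2 a3 a4 a5 q => ?_⟩
  have := (hk ⟨(n, (x, y), (x', y'), q), hn, a1, a2, a3, a4, a5⟩).1
  refine ⟨w ⟨(n, (x, y), (x', y'), q), hn, a1, a2, a3, a4, a5⟩, .of (k := k * lg (n + K (fun p => U p []) q))
    (by simpa [Cx] using lg_lo (n := n + K (fun p => U p []) q) (le_add_right hn) k) fun i => ?_⟩
  simp only [Near] at this
  fin_cases i <;> simp only [prof, Cx, Fin.zero_eta, Fin.mk_one, Fin.reduceFinMk, Matrix.cons_val] <;> omega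

theorem partC : Det (GW U) (W U e) := fun c _ => by
  obtain ⟨h1, h2, h3, h4, h5, h6⟩ := dom (U := U) (c := c) (N := fun i => i.1.1) fun _ => le_rfl
  have p := (h3.pair h4).of0 (two he hi _ _).2
  let q : J U c → Str := fun i => if K (fun p => U p []) i.1.2.2.2 ≤ K (fun p => U p []) (e [i.1.2.2.1.1, i.1.2.2.1.2])
    then i.1.2.2.2 else e [i.1.2.2.1.1, i.1.2.2.1.2]
  have pq : Pl U (fun i : J U c => i.1.1) q := .of_le (.mul 2 (by
    filter_upwards [br0 U (fun i : J U c => i.1.1) q, br0 U (fun i : J U c => i.1.1) fun i => e [i.1.2.2.1.1, i.1.2.2.1.2]] with d a b i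
    have := (a i).2; have := (b i).1
    have : K (fun p => U p []) (q i) ≤ K (fun p => U p []) (e [i.1.2.2.1.1, i.1.2.2.1.2]) := by
      unfold q; split_ifs <;> omega
    omega)) p
  obtain ⟨w, hw⟩ := transfer_str he hi h1 h2 h3 h4 pq h5 h6
  have z := (two (U := U) (N := fun i : J U c => i.1.1) he hi (·.1.2.2.1.1) (·.1.2.2.1.2)).1
  obtain ⟨k, ⟨⟨⟨⟨⟨⟨b1, b2⟩, b3⟩, b4⟩, b5⟩, b6⟩, b7⟩⟩ := ((((((hw.and (cond_str he hi (fun i => i.1.2.2.2) h1 h2)).and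
    (cond_str he hi (fun i => e [i.1.2.2.1.1, i.1.2.2.1.2]) h3 h4)).and (chain (u := fun i : J U c => i.1.2.2.2) h1.sm h2.sm)).and
    (wk (u' := fun i : J U c => (i.1.2.2.2, i.1.2.1.1)) Prod.fst .fst (fun _ => rfl) h2.sm)).and
    (tri0 z (fn0 Prod.fst .fst fun _ => rfl))).and (tri0 z (fn0 Prod.snd .snd fun _ => rfl))).exists
  have key : ∀ n, 2 ≤ n → ∀ x y x' y' : Str, x.length ≤ n → y.length ≤ n → x'.length ≤ n → y'.length ≤ n →
      Close (c * Real.logb 2 n) (GW U x y) (GW U x' y') → ∀ t ∈ W U e x y,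
      (fun i => t i + (9 * k * lg n : ℕ)) ∈ W U e x' y' := fun n hn x y x' y' a1 a2 a3 a4 a5 t ⟨r, h⟩ => by
    let i : J U c := ⟨(n, (x, y), (x', y'), r), hn, a1, a2, a3, a4, a5⟩
    have c1 := b1 i; have := b2 i; have := b3 i; have := b4 i; have := b5 i; have := b6 i; have := b7 i
    by_cases c : K (fun p => U p []) r ≤ K (fun p => U p []) (e [x', y'])
    · refine ⟨w i, ?_⟩
      simp only [q, i, if_pos c, Near, Cx, mul_assoc] at *
      omega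
    · refine ⟨e [x', y'], ?_⟩
      simp only [i, Near, Cx, mul_assoc, Pi.zero_apply] at *
      omega
  exact ⟨_, by positivity, fun n hn x y x' y' a1 a2 a3 a4 a5 => close_of (lg_lo hn (9 * k))
    (key n hn _ _ _ _ a1 a2 a3 a4 a5) (key n hn _ _ _ _ a3 a4 a1 a2 a5.symm)⟩

theorem partA' : ¬Det (GW U) (E U e) := fun h => by
  obtain ⟨b, hb⟩ := baseC (Fact.out : OptC U)
  replace hb : ∀ s, K (fun p => U p []) s ≤ s.length + b := fun s => let ⟨_, h1, h2⟩ := hb [] s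
    (K_le (D := fun p => U p []) h1).trans h2
  obtain ⟨w, hw⟩ := gw_nil (U := U) (I := {i : ℕ × Str × Str × Str // i.2.1.length = i.1 + 4 ∧ i.2.2.1.length = i.1 + 4 ∧
      i.1 < K (fun p => U p []) i.2.1}) (N := fun i => i.1.1 + 4) (x := (·.1.2.1)) (x' := (·.1.2.2.1)) (·.1.2.2.2)
    (.ofLen fun i => i.2.1.le) (.ofLen fun i => i.2.2.1.le) (.of_const ⟨b + 4, fun i => by
      have := hb i.1.2.2.1; have := i.2; omega⟩)
  obtain ⟨k, hk⟩ := hw.exists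
  have key : ∀ n (x x' : Str), x.length = n + 4 → x'.length = n + 4 → n < K (fun p => U p []) x → ∀ t ∈ GW U x [],
      (fun i => t i + (k * lg (n + 4) : ℕ)) ∈ GW U x' [] := fun n x x' a1 a2 a3 t ⟨r, h⟩ => by
    have := hk ⟨(n, x, x', r), a1, a2, a3⟩
    refine ⟨w ⟨(n, x, x', r), a1, a2, a3⟩, ?_⟩
    simp only [Cx] at *
    omega
  obtain ⟨c, -, hc⟩ := h (2 * k + 1 : ℕ) (by positivity)
  obtain ⟨a, ha⟩ := long (U := U) he
  obtain ⟨n, n1, n2⟩ := big (2 * ⌈c⌉₊ + a + b + 9) 4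
  obtain ⟨n, rfl⟩ := Nat.exists_eq_add_of_le' n1
  obtain ⟨x', -, c1, -, c2, -⟩ := pairs (U := U) hi n 0
  obtain ⟨x, q, d1, d2, d3, d4, d5⟩ := pairs (U := U) hi n (Encodable.encode x' * Encodable.encode x' + Encodable.encode x')
  obtain ⟨_, ⟨q', rfl⟩, k1⟩ := (hc (n + 4) (by omega) x [] x' [] d1.le (by simp) c1.le (by simp)
    (close_of (lg_lo (by omega) k) (key n _ _ d1 c1 d3) (key n _ _ c1 d1 c2))).1 _ ⟨q, rfl⟩
  have e1 := k1.int (lg_hi c (by omega)) 2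
  have e2 := k1.int (lg_hi c (by omega)) 4
  have e3 := Encodable.length_le_encode x'
  have e4 := hb q
  have e5 := lg_pos (n + 4)
  have e6 : a + b + 9 ≤ (a + b + 9) * lg (n + 4) := Nat.le_mul_of_pos_right _ e5
  simp only [prof, Cx, Matrix.cons_val, add_assoc, add_mul, mul_assoc] at *
  have := ha x' q' (Nat.eq_sqrt.2 ⟨by omega, by simp only [add_mul, mul_add]; omega⟩).symm
  omega

theorem partB : ∃ c > (0 : ℝ), ∀ c' > (0 : ℝ), ∃ n : ℕ, 2 ≤ n ∧ ∃ x y q : List Bool,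
    x.length ≤ n ∧ y.length ≤ n ∧ q.length ≤ n ∧ |(Cx U x [] : ℝ) - Cx U y []| ≤ c * Real.logb 2 n ∧
    Close (c * Real.logb 2 n) (W U e x y) (W U e y x) ∧ ¬Close (c' * Real.logb 2 n) (GW U x y) (GW U y x) ∧
    ∀ q', ¬Nr (c' * Real.logb 2 n) (prof U e x y q) (prof U e y x q') := by
  obtain ⟨X, Y, Q, h1, h2, h3⟩ := asym (U := U) he hi
  let I := {i : ℕ × Str × Str × Str // i.2.1.length ≤ i.1 ∧ i.2.2.1.length ≤ i.1}
  have p1 : Pl U (fun i : I => i.1.1) (·.1.2.1) := .ofLen fun i => i.2.1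
  have p2 : Pl U (fun i : I => i.1.1) (·.1.2.2.1) := .ofLen fun i => i.2.2
  obtain ⟨k, ⟨a1, a2⟩, a3⟩ := (((cond_str he hi (fun i : I => i.1.2.2.2) p1 p2).and (cond_str he hi (fun i : I => i.1.2.2.2) p2 p1)).and
    (swap (u := fun i : I => i.1.2.2.2) (p2.pair p1).sm)).exists
  obtain ⟨k', a4⟩ := h2.exists
  have key : ∀ n (x y : Str), x.length ≤ n → y.length ≤ n → ∀ t ∈ W U e x y,
      (fun i => t i + ((3 * k + k') * lg n : ℕ)) ∈ W U e y x := fun n x y b1 b2 t ⟨r, h⟩ => ⟨r, by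
    have := (a1 ⟨(n, x, y, r), b1, b2⟩).2.2.1; have := (a2 ⟨(n, x, y, r), b1, b2⟩).2.2.1
    have := a3 ⟨(n, x, y, r), b1, b2⟩
    simp only [Near, Cx, add_mul, mul_assoc] at *
    omega⟩
  refine ⟨(2 * (3 * k + k') + 1 : ℕ), by positivity, fun c _ => ?_⟩
  let n : ℕ → ℕ := fun m => m + ((X m).length + (Y m).length + (Q m).length)
  obtain ⟨a, ha⟩ := h3 (fun m => ⌈c⌉₊ * lg (n m)) (.mul ⌈c⌉₊ ((sm_add sm_N h1).lg.mono fun _ h i => by
    simpa using Nat.mul_le_mul_left _ (by simpa using h i)))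
  obtain ⟨m, m1, m2⟩ := big a 2
  have n1 : 2 ≤ n m := le_add_right m1
  have l1 : (X m).length ≤ n m := by unfold n; omega
  have l2 : (Y m).length ≤ n m := by unfold n; omega
  refine ⟨n m, n1, X m, Y m, Q m, l1, l2, by unfold n; omega, ?_,
    close_of (lg_lo n1 _) (key _ _ _ l1 l2) (key _ _ _ l2 l1), fun h => ?_, fun q h => ?_⟩
  · refine Nr.of (p := ![Cx U (X m) []]) (p' := ![Cx U (Y m) []]) (lg_lo n1 _) (fun i => ?_) 0
    have := a4 m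
    have := Nat.mul_le_mul_left k' (lg_mono (show m ≤ n m from Nat.le_add_right _ _))
    simp only [Near, Cx, Matrix.cons_val_fin_one, add_mul, id] at *
    omega
  · obtain ⟨q, b1, b2⟩ := step h (lg_hi c n1) (Q m)
    exact m2.not_ge (ha m q b1 (.inl b2))
  · have := h.int (lg_hi c n1) 2; have := h.int (lg_hi c n1) 4; have := h.int (lg_hi c n1) 5
    simp only [prof, Cx, Matrix.cons_val] at *
    exact m2.not_ge (ha m q (by omega) (.inr (by omega)))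

omit he hi [Fact (OptC U)] in
theorem result (U : List Bool → List Bool →. List Bool) (hU : OptC U) (e : List (List Bool) → List Bool)
    (he : Computable e) (hi : Function.Injective e) :
    (∀ c > (0 : ℝ), ∃ c' > (0 : ℝ), ∀ n : ℕ, 2 ≤ n → ∀ x y x' y' : List Bool,
      x.length ≤ n → y.length ≤ n → x'.length ≤ n → y'.length ≤ n →
      Close (c * Real.logb 2 n) (GW U x y) (GW U x' y') →
      ∀ q, ∃ q', Nr (c' * Real.logb 2 (n + Cx U q [])) (prof U e x y q) (prof U e x' y' q')) ∧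
    ¬Det (GW U) (E U e) ∧ ¬Det (W U e) (E U e) ∧ Det (GW U) (W U e) ∧ ¬Det (W U e) (GW U) ∧
    ∃ c > (0 : ℝ), ∀ c' > (0 : ℝ), ∃ n : ℕ, 2 ≤ n ∧ ∃ x y q : List Bool,
      x.length ≤ n ∧ y.length ≤ n ∧ q.length ≤ n ∧ |(Cx U x [] : ℝ) - Cx U y []| ≤ c * Real.logb 2 n ∧
      Close (c * Real.logb 2 n) (W U e x y) (W U e y x) ∧ ¬Close (c' * Real.logb 2 n) (GW U x y) (GW U y x) ∧
      ∀ q', ¬Nr (c' * Real.logb 2 n) (prof U e x y q) (prof U e y x q') := by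
  have : Fact (OptC U) := ⟨hU⟩
  obtain ⟨c, c0, hc⟩ := partB (U := U) he hi
  refine ⟨fun c _ => partA he hi c, partA' he hi, fun h => ?_, partC he hi, fun h => ?_, c, c0, hc⟩
  · obtain ⟨d, d0, hd⟩ := h c c0
    obtain ⟨n, hn, x, y, q, a1, a2, -, -, a3, -, a4⟩ := hc d d0
    obtain ⟨_, ⟨q', rfl⟩, k⟩ := (hd n hn x y y x a1 a2 a2 a1 a3).1 _ ⟨q, rfl⟩
    exact a4 q' k
  · obtain ⟨d, d0, hd⟩ := h c c0
    obtain ⟨n, hn, x, y, q, a1, a2, -, -, a3, a4, -⟩ := hc d d0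
    exact a4 (hd n hn x y y x a1 a2 a2 a1 a3)

end Pool.Agent.Results.MP_e57333_lc.All
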